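import Pool.Agent.X31.U4

/-!
# The Liouville function at products of linear factors whose constant terms are within `N ^ δ` of
# the values of generalised polynomials,
# times arbitrary bounded functions of the other linear forms, at most scales

`f i(t) = ∑ u_x t ^ x` is an arbitrary finite real combination of real powers of `t` with a positive largest exponent
`c i` (for instance `t ^ {3/2}`, `√2 t ^ 3 + t`, `t ^ {1/10}`), and `M i` is an arbitrary subset of `{1, ..., Y i}` with at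
least `Y i / N ^ δ` elements. The values considered are `b₀ + θ f(n)`, with arbitrary real `b₀` and `θ` for which these
values are of size `N` (for instance `θ = N / Y ^ c`).
At most scales `N`: for all but a proportion `N ^ (-δ)` of the tuples `q` with `q i ∈ M i`, ALL tuples `s` of integers
within `N ^ δ` of the values at the `q i` satisfy
`|∑ n ≤ X, w n λ(∏ i ∈ I, (a i n + s i)) ∏ i ∉ I, G i (a i n + s i)| ≤ ε N` for all `1 ≤ a i ≤ A`, all sets `I ≠ ∅` of
indices and all `X ≤ N`, with arbitrary functions `G i` and weights `w` bounded by `1`.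

The minimal real additive energy of generalised polynomials is from `Pool.Agent.X31` (`gp_EB`, in this run); the theorem on
families of small energy at most scales (`Pool.Agent.TH823.PS.most_good`) is in the starting files.
From Mathlib: `ArithmeticFunction.cardFactors m`: the number of prime factors of `m` with multiplicity;
`Finset.Icc 1 X`: the integers `n` with `1 ≤ n ≤ X`.
-/

set_option autoImplicit false

namespace Pool.Agent.Results.MP_892e4c_nt.GeneralisedPolynomialFactors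

open Finset

/-- the generalised polynomial with the exponents `x ∈ F` and the coefficients `u x` -/
noncomputable def f (F : Finset ℝ) (u : ℝ → ℝ) (t : ℝ) : ℝ := ∑ x ∈ F, u x * t ^ x

/-- `M` is a subset of `{1, ..., Y}` with at least `Y / N ^ δ` elements, `Y ≤ N ^ D`; the number `θ` is at most
`N ^ δ` and at least `N / (Y ^ c N ^ δ)` in absolute value, and `|b₀ + θ f(n)| ≤ N` for all `n ∈ M`. -/
def Fam (D : ℕ) (F : Finset ℝ) (u : ℝ → ℝ) (c : ℝ) (N Y : ℕ) (δ θ b₀ : ℝ) (M : Finset ℕ) : Prop :=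
  (Y : ℝ) ≤ (N : ℝ) ^ D ∧ |θ| ≤ (N : ℝ) ^ δ ∧ (N : ℝ) / (N : ℝ) ^ δ ≤ |θ| * (Y : ℝ) ^ c ∧
  M ⊆ Icc 1 Y ∧ (Y : ℝ) / (N : ℝ) ^ δ ≤ M.card ∧ ∀ n ∈ M, |b₀ + θ * f F u n| ≤ N

/-- The Liouville function on the integers: `λ(m) = (-1) ^ Ω(|m|)` for `m ≠ 0`, and `λ(0) = 0`. -/
def lam (m : ℤ) : ℤ := if m = 0 then 0 else (-1) ^ ArithmeticFunction.cardFactors m.natAbs

open Classical in
/-- The property `P` holds at most scales: the set of the positive integers `N` with the property `P` has upper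
logarithmic density at least `1 - ε`. Precisely, for arbitrarily large `R` the sum of `1 / N` over the `N ≤ R`
without the property is at most `ε log R`. -/
def MostScales (ε : ℝ) (P : ℕ → Prop) : Prop :=
  ∀ R₀ : ℕ, ∃ R : ℕ, R₀ ≤ R ∧ ∑ N ∈ (Icc 1 R).filter (fun N => ¬ P N), (1 : ℝ) / N ≤ ε * Real.log R

/-- The sum over `n ≤ X` of `w n * λ (f n) * ∏ i ∉ I, G i (a i n + s i)` with the polynomial
`f n = ∏ i ∈ I, (a i n + s i)`. -/
noncomputable def linSum {r : ℕ} (a : Fin r → ℕ) (s : Fin r → ℤ) (I : Finset (Fin r)) (w : ℕ → ℂ) (G : Fin r → ℤ → ℂ)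
    (X : ℕ) : ℂ :=
  ∑ n ∈ Icc 1 X, w n * (lam (∏ i ∈ I, (a i * n + s i)) : ℂ) * ∏ i ∈ univ \ I, G i (a i * n + s i)

/-- The tuple `s` is good at the scale `N`: `|linSum a s I w G X| ≤ ε N` for all the coefficients `1 ≤ a i ≤ A`, all the
sets `I ≠ ∅` of indices and all `X ≤ N`. -/
def Good {r : ℕ} (A : ℕ) (ε : ℝ) (N : ℕ) (w : ℕ → ℂ) (G : Fin r → ℤ → ℂ) (s : Fin r → ℤ) : Prop :=
  ∀ a : Fin r → ℕ, (∀ i, 1 ≤ a i ∧ a i ≤ A) → ∀ I : Finset (Fin r), I.Nonempty → ∀ X : ℕ, X ≤ N →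
    ‖linSum a s I w G X‖ ≤ ε * N

/-- At the scale `N`: for all `Y i`, all real `θ i`, `b₀ i` and all sets `M i` with
`Fam D (F i) (u i) (c i) N (Y i) δ (θ i) (b₀ i) (M i)`, and all weights `w n` and functions `G i` bounded by `1`: for all the tuples `q`
with `q i ∈ M i` with at most `∏ #(M i) / N ^ δ` exceptions, ALL the tuples `s` of integers with
`|s i - (b₀ i + θ i * f (F i) (u i) (q i))| ≤ N ^ δ` are good. -/
def Tuples (A : ℕ) {r : ℕ} (D : ℕ) (F : Fin r → Finset ℝ) (u : Fin r → ℝ → ℝ) (c : Fin r → ℝ) (ε δ : ℝ) (N : ℕ) : Prop :=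
  ∀ (Y : Fin r → ℕ) (θ b₀ : Fin r → ℝ) (M : Fin r → Finset ℕ),
    (∀ i, Fam D (F i) (u i) (c i) N (Y i) δ (θ i) (b₀ i) (M i)) →
    ∀ (w : ℕ → ℂ) (G : Fin r → ℤ → ℂ), (∀ n, ‖w n‖ ≤ 1) → (∀ i k, ‖G i k‖ ≤ 1) →
      ∃ E : Finset (Fin r → ℕ), (E.card : ℝ) ≤ (∏ i, ((M i).card : ℝ)) * (N : ℝ) ^ (-δ) ∧
        ∀ q : Fin r → ℕ, (∀ i, q i ∈ M i) → q ∉ E →
          ∀ s : Fin r → ℤ, (∀ i, |(s i : ℝ) - (b₀ i + θ i * f (F i) (u i) (q i))| ≤ (N : ℝ) ^ δ) → Good A ε N w G s

lemma dat_of {D : ℕ} {F : Finset ℝ} {u : ℝ → ℝ} {c : ℝ} {N Y : ℕ} {δ θ b₀ : ℝ} {M : Finset ℕ}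
    (h : Fam D F u c N Y δ θ b₀ M) :
    Pool.Agent.X31.DatGT D c ((N : ℝ) ^ δ) N Y θ b₀ (fun n => Pool.Agent.X31.gp F u n) M :=
  ⟨h.1, h.2.1, h.2.2.1, h.2.2.2.1, h.2.2.2.2.1, h.2.2.2.2.2⟩

lemma most_of {ε : ℝ} {P P' : ℕ → Prop} (h : Pool.Agent.TH823.PS.Most ε P) (hPP : ∀ N, P N → P' N) :
    MostScales ε P' := by
  classical
  have h' : MostScales ε P := h
  intro R₀
  obtain ⟨R, hR, h1⟩ := h' R₀
  refine ⟨R, hR, le_trans ?_ h1⟩
  apply sum_le_sum_of_subset_of_nonneg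
  · intro N hN
    simp only [mem_filter] at hN ⊢
    exact ⟨hN.1, fun h2 => hN.2 (hPP N h2)⟩
  · intro _ _ _; positivity

lemma lam_mul (m n : ℤ) : lam (m * n) = lam m * lam n := by
  unfold lam
  by_cases hm : m = 0
  · simp [hm]
  by_cases hn : n = 0
  · simp [hn]
  rw [if_neg (mul_ne_zero hm hn), if_neg hm, if_neg hn, Int.natAbs_mul,
    ArithmeticFunction.cardFactors_mul (Int.natAbs_ne_zero.2 hm) (Int.natAbs_ne_zero.2 hn), pow_add]

lemma lam_prod {r : ℕ} (g : Fin r → ℤ) (I : Finset (Fin r)) : lam (∏ i ∈ I, g i) = ∏ i ∈ I, lam (g i) := by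
  classical
  induction I using Finset.induction_on with
  | empty => simp [lam]
  | insert i I hi ih => rw [prod_insert hi, prod_insert hi, lam_mul, ih]

lemma lam_abs (m : ℤ) : |lam m| ≤ 1 := by
  unfold lam
  split_ifs
  · simp
  · rw [abs_pow]; simp

lemma lam_eq (m : ℤ) : (lam m : ℂ) = Pool.Agent.TH823.PS.evI Pool.Agent.H373R2.T7.liR m := by
  unfold lam Pool.Agent.TH823.PS.evI Pool.Agent.H373R2.T7.exI Pool.Agent.H373R2.T7.liR
  rcases lt_trichotomy m 0 with h | h | h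
  · rw [if_neg h.ne, if_neg (by omega), if_pos (by omega), zero_add]
    have : m.natAbs = (-m).toNat := by omega
    rw [this]
    push_cast
    rfl
  · subst h
    simp
  · rw [if_neg h.ne', if_pos (by omega), if_neg (by omega), add_zero]
    have : m.natAbs = m.toNat := by omega
    rw [this]
    push_cast
    rfl

/-- Let `F i` be finite sets of real numbers with the maxima `c i > 0`, `u i (c i) ≠ 0` (`i < r`), `D` an integer. Let `A` be an integer and `ε > 0`.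
There is a `δ > 0` such that at most scales `N`, that is on a set of `N` of upper logarithmic density at least `1 - ε`,
`Tuples A D F u c ε δ N` holds: for all `Y i`, all real `θ i`, `b₀ i` and all sets `M i` with
`Fam D (F i) (u i) (c i) N (Y i) δ (θ i) (b₀ i) (M i)`, and all weights `w n` and functions `G i` bounded by `1`,
for all the tuples `q` with `q i ∈ M i` with at most `∏ #(M i) / N ^ δ` exceptions, ALL the tuples `s` of integers with
`|s i - (b₀ i + θ i * f (F i) (u i) (q i))| ≤ N ^ δ` satisfy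
`|∑ n ≤ X, w n * λ (∏ i ∈ I, (a i n + s i)) * ∏ i ∉ I, G i (a i n + s i)| ≤ ε N` for all `1 ≤ a i ≤ A`, all the sets
`I ≠ ∅` of indices and all `X ≤ N`. -/
theorem result (A r : ℕ) (D : ℕ) (F : Fin r → Finset ℝ) (u : Fin r → ℝ → ℝ) (c : Fin r → ℝ) 
    (hF : ∀ i, c i ∈ F i ∧ (∀ x ∈ F i, x ≤ c i) ∧ u i (c i) ≠ 0 ∧ 0 < c i) (ε : ℝ) (hε : 0 < ε) :
    ∃ δ : ℝ, 0 < δ ∧ MostScales ε (Tuples A D F u c ε δ) := by
  classical
  obtain ⟨E', HS⟩ : ∃ E' : Fin r → ℕ, ∀ i,
      Pool.Agent.X31.SchT (E' i) (Pool.Agent.X31.QGp D (F i) (u i) (c i)) := by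
    choose E' HS using fun i => Pool.Agent.X31.SchT_gp D (F i) (u i) (c i) (hF i).1 (hF i).2.1 (hF i).2.2.1
      (hF i).2.2.2
    exact ⟨E', HS⟩
  obtain ⟨e⟩ : Nonempty (Fin (Fintype.card {t : (Fin r → Fin A) × Finset (Fin r) // t.2.Nonempty}) ≃ {t : (Fin r → Fin A) × Finset (Fin r) // t.2.Nonempty}) := ⟨(Fintype.equivFin _).symm⟩
  obtain ⟨δ, hδ, H⟩ := Pool.Agent.X31.SchT.most_pos HS (fun _ => 0) Pool.Agent.TH823.PS.nice_liR (A + 1)
    (Fintype.card {t : (Fin r → Fin A) × Finset (Fin r) // t.2.Nonempty}) (by omega) hε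
  refine ⟨δ, hδ, most_of (H 1) fun N h => ?_⟩
  obtain ⟨hN1, H1⟩ := h
  intro Y θ b₀ M hfam w G hw hG
  obtain ⟨i₀, hi₀⟩ : ∃ i₀ : (Fin (Fintype.card {t : (Fin r → Fin A) × Finset (Fin r) // t.2.Nonempty})) → Fin r,
      ∀ l, i₀ l ∈ (e l).1.2 := ⟨fun l => (e l).2.choose, fun l => (e l).2.choose_spec⟩
  obtain ⟨α, hα⟩ : ∃ α : (Fin (Fintype.card {t : (Fin r → Fin A) × Finset (Fin r) // t.2.Nonempty})) → Fin r → ℕ,
      α = fun l i => ((e l).1.1 i : ℕ) + 1 := ⟨_, rfl⟩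
  obtain ⟨E, hE1, hE2⟩ := H1 M (fun i n => (b₀ i + θ i * f (F i) (u i) n)) (fun i => ⟨Y i, θ i, b₀ i, dat_of (hfam i), fun _ => rfl⟩)
    (fun l => α l (i₀ l)) (fun l => by rw [hα]; simp) (fun l => by
      rw [hα]
      have := ((e l).1.1 (i₀ l)).2
      simp only
      omega) i₀
    (fun l s n => w n * (∏ i ∈ (e l).1.2.erase (i₀ l), (lam (α l i * n + s i) : ℂ)) *
      ∏ i ∈ univ \ (e l).1.2, G i (α l i * n + s i)) (by
      intro l s n
      rw [norm_mul, norm_mul, norm_prod, norm_prod]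
      refine mul_le_one₀ (mul_le_one₀ (hw n) (prod_nonneg fun _ _ => norm_nonneg _)
        (prod_le_one (fun _ _ => norm_nonneg _) fun i _ => ?_)) (prod_nonneg fun _ _ => norm_nonneg _)
        (prod_le_one (fun _ _ => norm_nonneg _) fun i _ => hG _ _)
      rw [Complex.norm_intCast]
      exact_mod_cast lam_abs _) (by
      intro l s s' n hss
      have e1 : ∏ i ∈ (e l).1.2.erase (i₀ l), (lam (α l i * n + s i) : ℂ) =
          ∏ i ∈ (e l).1.2.erase (i₀ l), (lam (α l i * n + s' i) : ℂ) :=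
        prod_congr rfl fun i hi => by rw [hss i (mem_erase.1 hi).1]
      have e2 : ∏ i ∈ univ \ (e l).1.2, G i (α l i * n + s i) =
          ∏ i ∈ univ \ (e l).1.2, G i (α l i * n + s' i) :=
        prod_congr rfl fun i hi => by
          rw [hss i (fun h3 => (mem_sdiff.1 hi).2 (h3 ▸ hi₀ l))]
      rw [e1, e2])
  refine ⟨E, hE1, fun q hq hqE s hs a ha I hI X hX => ?_⟩
  obtain ⟨l, hl⟩ : ∃ l, e l = ⟨(fun i => ⟨a i - 1, by have := ha i; omega⟩, I), hI⟩ := e.surjective _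
  have h1 := hE2 q hq hqE s hs l X hX
  have hi := hi₀ l
  have ea : ∀ i, α l i = a i := by
    intro i
    rw [hα]
    simp only
    rw [hl]
    have := ha i
    simp only
    omega
  simp only [ea] at h1
  rw [hl] at h1 hi
  simp only at h1 hi
  refine le_trans (le_of_eq ?_) h1
  unfold linSum
  congr 1
  apply sum_congr rfl
  intro n _
  rw [lam_prod, ← mul_prod_erase I _ hi, ← lam_eq]
  push_cast
  ring

end Pool.Agent.Results.MP_892e4c_nt.GeneralisedPolynomialFactors
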