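import Pool.Agent.X31.U4

/-!
# The Liouville function at products of linear factors whose constant terms are within `N ^ δ` of
# the values of polynomials at integers with missing digits,
# times arbitrary bounded functions of the other linear forms, at most scales

`C i` is the set of the integers with `m i` digits in base `b i` whose digit at `(b i) ^ j` is in `𝒟 i j`, where the sets
`𝒟 i j` of allowed digits are arbitrary with at least TWO elements (for instance: the integers with the decimal digits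
`0` and `1` only), `M i` is an arbitrary subset of `C i` with at least `#(C i) / N ^ δ` elements, and `f i` is an
arbitrary real polynomial of degree `d i ≥ 2` (only the size of the leading coefficient is restricted).
At most scales `N`: for all but a proportion `N ^ (-δ)` of the tuples `q` with `q i ∈ M i`, ALL tuples `s` of integers
within `N ^ δ` of the values at the `q i` satisfy
`|∑ n ≤ X, w n λ(∏ i ∈ I, (a i n + s i)) ∏ i ∉ I, G i (a i n + s i)| ≤ ε N` for all `1 ≤ a i ≤ A`, all sets `I ≠ ∅` of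
indices and all `X ≤ N`, with arbitrary functions `G i` and weights `w` bounded by `1`.

The minimal real additive energy of the values of polynomials at the integers with missing digits is from
`Pool.Agent.X31.K1` - `K9` (in this run); the theorem on
families of small energy at most scales (`Pool.Agent.TH823.PS.most_good`) is in the starting files.
From Mathlib: `ArithmeticFunction.cardFactors m`: the number of prime factors of `m` with multiplicity;
`Finset.Icc 1 X`: the integers `n` with `1 ≤ n ≤ X`.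
-/

set_option autoImplicit false

namespace Pool.Agent.Results.MP_892e4c_nt.MissingDigitFactors

open Finset
open scoped Polynomial

/-- the integers `0 ≤ n < b ^ m` whose digit at `b ^ j` in base `b` is in `𝒟 j`, for all `j < m` -/
def Digits (b : ℕ) (𝒟 : ℕ → Finset ℕ) (m : ℕ) : Finset ℕ :=
  (range (b ^ m)).filter (fun n => ∀ j < m, n / b ^ j % b ∈ 𝒟 j)

/-- `M` is a subset with at least `#(Digits b 𝒟 m) / N ^ δ` elements of the set `Digits b 𝒟 m`, where all sets `𝒟 j`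
of allowed digits have at least two elements; `f` is a real polynomial of degree at most `d`, the coefficient of `x ^ d`
is at most `N ^ δ` and at least `N / (b ^ (d m) N ^ δ)` in absolute value, and `|f| ≤ N` on `M`. -/
def Fam (b d N m : ℕ) (δ : ℝ) (𝒟 : ℕ → Finset ℕ) (f : ℝ[X]) (M : Finset ℕ) : Prop :=
  (∀ j, 𝒟 j ⊆ range b ∧ 2 ≤ (𝒟 j).card) ∧
  f.natDegree ≤ d ∧ |f.coeff d| ≤ (N : ℝ) ^ δ ∧ (N : ℝ) / (N : ℝ) ^ δ ≤ |f.coeff d| * (b : ℝ) ^ (d * m) ∧
  M ⊆ Digits b 𝒟 m ∧ ((Digits b 𝒟 m).card : ℝ) / (N : ℝ) ^ δ ≤ M.card ∧ ∀ n ∈ M, |f.eval (n : ℝ)| ≤ N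

/-- The Liouville function on the integers: `λ(m) = (-1) ^ Ω(|m|)` for `m ≠ 0`, and `λ(0) = 0`. -/
def lam (m : ℤ) : ℤ := if m = 0 then 0 else (-1) ^ ArithmeticFunction.cardFactors m.natAbs

open Classical in
/-- The property `P` holds at most scales: the set of the positive integers `N` with the property `P` has upper
logarithmic density at least `1 - ε`. Precisely, for arbitrarily large `R` the sum of `1 / N` over the `N ≤ R`
without the property is at most `ε log R`. -/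
def MostScales (ε : ℝ) (P : ℕ → Prop) : Prop :=
  ∀ R₀ : ℕ, ∃ R : ℕ, R₀ ≤ R ∧ ∑ N ∈ (Icc 1 R).filter (fun N => ¬ P N), (1 : ℝ) / N ≤ ε * Real.log R

/-- The sum over `n ≤ X` of `w n * λ (f n) * ∏ i ∉ I, G i (a i n + s i)` with the polynomial
`f n = ∏ i ∈ I, (a i n + s i)`. -/
noncomputable def linSum {r : ℕ} (a : Fin r → ℕ) (s : Fin r → ℤ) (I : Finset (Fin r)) (w : ℕ → ℂ) (G : Fin r → ℤ → ℂ)
    (X : ℕ) : ℂ :=
  ∑ n ∈ Icc 1 X, w n * (lam (∏ i ∈ I, (a i * n + s i)) : ℂ) * ∏ i ∈ univ \ I, G i (a i * n + s i)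

/-- The tuple `s` is good at the scale `N`: `|linSum a s I w G X| ≤ ε N` for all the coefficients `1 ≤ a i ≤ A`, all the
sets `I ≠ ∅` of indices and all `X ≤ N`. -/
def Good {r : ℕ} (A : ℕ) (ε : ℝ) (N : ℕ) (w : ℕ → ℂ) (G : Fin r → ℤ → ℂ) (s : Fin r → ℤ) : Prop :=
  ∀ a : Fin r → ℕ, (∀ i, 1 ≤ a i ∧ a i ≤ A) → ∀ I : Finset (Fin r), I.Nonempty → ∀ X : ℕ, X ≤ N →
    ‖linSum a s I w G X‖ ≤ ε * N

/-- At the scale `N`: for all numbers `m i` of digits, ALL sets `𝒟 i j` of allowed digits, ALL real polynomials `f i` and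
all sets `M i` with `Fam (b i) (d i) N (m i) δ (𝒟 i) (f i) (M i)`, and all weights `w n` and functions `G i` bounded by `1`: for all the tuples `q`
with `q i ∈ M i` with at most `∏ #(M i) / N ^ δ` exceptions, ALL the tuples `s` of integers with
`|s i - (f i).eval (q i : ℝ)| ≤ N ^ δ` are good. -/
def Tuples (A : ℕ) {r : ℕ} (b d : Fin r → ℕ) (ε δ : ℝ) (N : ℕ) : Prop :=
  ∀ (m : Fin r → ℕ) (𝒟 : Fin r → ℕ → Finset ℕ) (f : Fin r → ℝ[X]) (M : Fin r → Finset ℕ),
    (∀ i, Fam (b i) (d i) N (m i) δ (𝒟 i) (f i) (M i)) →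
    ∀ (w : ℕ → ℂ) (G : Fin r → ℤ → ℂ), (∀ n, ‖w n‖ ≤ 1) → (∀ i k, ‖G i k‖ ≤ 1) →
      ∃ E : Finset (Fin r → ℕ), (E.card : ℝ) ≤ (∏ i, ((M i).card : ℝ)) * (N : ℝ) ^ (-δ) ∧
        ∀ q : Fin r → ℕ, (∀ i, q i ∈ M i) → q ∉ E →
          ∀ s : Fin r → ℤ, (∀ i, |(s i : ℝ) - (f i).eval (q i : ℝ)| ≤ (N : ℝ) ^ δ) → Good A ε N w G s

lemma dat_of {b d N m : ℕ} {δ : ℝ} {𝒟 : ℕ → Finset ℕ} {f : ℝ[X]} {M : Finset ℕ} (h : Fam b d N m δ 𝒟 f M) :
    Pool.Agent.X31.CT.DatT b d ((N : ℝ) ^ δ) N m 𝒟 f M :=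
  ⟨h.1, h.2.1, h.2.2.1, h.2.2.2.1, h.2.2.2.2.1, h.2.2.2.2.2.1, h.2.2.2.2.2.2⟩

lemma most_of {ε : ℝ} {P P' : ℕ → Prop} (h : Pool.Agent.TH823.PS.Most ε P) (hPP : ∀ N, P N → P' N) :
    MostScales ε P' := by
  classical
  have h' : MostScales ε P := h
  intro R₀
  obtain ⟨R, hR, h1⟩ := h' R₀
  refine ⟨R, hR, le_trans ?_ h1⟩
  apply sum_le_sum_of_subset_of_nonneg
  · intro N hN
    simp only [mem_filter] at hN ⊢
    exact ⟨hN.1, fun h2 => hN.2 (hPP N h2)⟩
  · intro _ _ _; positivity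

lemma lam_mul (m n : ℤ) : lam (m * n) = lam m * lam n := by
  unfold lam
  by_cases hm : m = 0
  · simp [hm]
  by_cases hn : n = 0
  · simp [hn]
  rw [if_neg (mul_ne_zero hm hn), if_neg hm, if_neg hn, Int.natAbs_mul,
    ArithmeticFunction.cardFactors_mul (Int.natAbs_ne_zero.2 hm) (Int.natAbs_ne_zero.2 hn), pow_add]

lemma lam_prod {r : ℕ} (g : Fin r → ℤ) (I : Finset (Fin r)) : lam (∏ i ∈ I, g i) = ∏ i ∈ I, lam (g i) := by
  classical
  induction I using Finset.induction_on with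
  | empty => simp [lam]
  | insert i I hi ih => rw [prod_insert hi, prod_insert hi, lam_mul, ih]

lemma lam_abs (m : ℤ) : |lam m| ≤ 1 := by
  unfold lam
  split_ifs
  · simp
  · rw [abs_pow]; simp

lemma lam_eq (m : ℤ) : (lam m : ℂ) = Pool.Agent.TH823.PS.evI Pool.Agent.H373R2.T7.liR m := by
  unfold lam Pool.Agent.TH823.PS.evI Pool.Agent.H373R2.T7.exI Pool.Agent.H373R2.T7.liR
  rcases lt_trichotomy m 0 with h | h | h
  · rw [if_neg h.ne, if_neg (by omega), if_pos (by omega), zero_add]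
    have : m.natAbs = (-m).toNat := by omega
    rw [this]
    push_cast
    rfl
  · subst h
    simp
  · rw [if_neg h.ne', if_pos (by omega), if_neg (by omega), add_zero]
    have : m.natAbs = m.toNat := by omega
    rw [this]
    push_cast
    rfl

/-- Let `b i, d i ≥ 2` be integers (`i < r`). Let `A` be an integer and `ε > 0`.
There is a `δ > 0` such that at most scales `N`, that is on a set of `N` of upper logarithmic density at least `1 - ε`,
`Tuples A b d ε δ N` holds: for all numbers `m i` of digits, ALL sets `𝒟 i j` of allowed digits, ALL real polynomials `f i` and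
all sets `M i` with `Fam (b i) (d i) N (m i) δ (𝒟 i) (f i) (M i)`, and all weights `w n` and functions `G i` bounded by `1`,
for all the tuples `q` with `q i ∈ M i` with at most `∏ #(M i) / N ^ δ` exceptions, ALL the tuples `s` of integers with
`|s i - (f i).eval (q i : ℝ)| ≤ N ^ δ` satisfy
`|∑ n ≤ X, w n * λ (∏ i ∈ I, (a i n + s i)) * ∏ i ∉ I, G i (a i n + s i)| ≤ ε N` for all `1 ≤ a i ≤ A`, all the sets
`I ≠ ∅` of indices and all `X ≤ N`. -/
theorem result (A r : ℕ) (b d : Fin r → ℕ) (hb : ∀ i, 2 ≤ b i) (hd : ∀ i, 2 ≤ d i) (ε : ℝ) (hε : 0 < ε) :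
    ∃ δ : ℝ, 0 < δ ∧ MostScales ε (Tuples A b d ε δ) := by
  classical
  obtain ⟨E', HS⟩ : ∃ E' : Fin r → ℕ, ∀ i, Pool.Agent.X31.SchT (E' i) (Pool.Agent.X31.QDg (b i) (d i)) :=
    ⟨fun _ => 0, fun i => Pool.Agent.X31.SchT_dg (hb i) (hd i)⟩
  obtain ⟨e⟩ : Nonempty (Fin (Fintype.card {t : (Fin r → Fin A) × Finset (Fin r) // t.2.Nonempty}) ≃ {t : (Fin r → Fin A) × Finset (Fin r) // t.2.Nonempty}) := ⟨(Fintype.equivFin _).symm⟩
  obtain ⟨δ, hδ, H⟩ := Pool.Agent.X31.SchT.most_pos HS (fun _ => 0) Pool.Agent.TH823.PS.nice_liR (A + 1)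
    (Fintype.card {t : (Fin r → Fin A) × Finset (Fin r) // t.2.Nonempty}) (by omega) hε
  refine ⟨δ, hδ, most_of (H 1) fun N h => ?_⟩
  obtain ⟨hN1, H1⟩ := h
  intro m 𝒟 f M hfam w G hw hG
  obtain ⟨i₀, hi₀⟩ : ∃ i₀ : (Fin (Fintype.card {t : (Fin r → Fin A) × Finset (Fin r) // t.2.Nonempty})) → Fin r,
      ∀ l, i₀ l ∈ (e l).1.2 := ⟨fun l => (e l).2.choose, fun l => (e l).2.choose_spec⟩
  obtain ⟨α, hα⟩ : ∃ α : (Fin (Fintype.card {t : (Fin r → Fin A) × Finset (Fin r) // t.2.Nonempty})) → Fin r → ℕ,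
      α = fun l i => ((e l).1.1 i : ℕ) + 1 := ⟨_, rfl⟩
  obtain ⟨E, hE1, hE2⟩ := H1 M (fun i n => (f i).eval (n : ℝ)) (fun i => ⟨m i, 𝒟 i, f i, dat_of (hfam i), fun _ => rfl⟩)
    (fun l => α l (i₀ l)) (fun l => by rw [hα]; simp) (fun l => by
      rw [hα]
      have := ((e l).1.1 (i₀ l)).2
      simp only
      omega) i₀
    (fun l s n => w n * (∏ i ∈ (e l).1.2.erase (i₀ l), (lam (α l i * n + s i) : ℂ)) *
      ∏ i ∈ univ \ (e l).1.2, G i (α l i * n + s i)) (by
      intro l s n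
      rw [norm_mul, norm_mul, norm_prod, norm_prod]
      refine mul_le_one₀ (mul_le_one₀ (hw n) (prod_nonneg fun _ _ => norm_nonneg _)
        (prod_le_one (fun _ _ => norm_nonneg _) fun i _ => ?_)) (prod_nonneg fun _ _ => norm_nonneg _)
        (prod_le_one (fun _ _ => norm_nonneg _) fun i _ => hG _ _)
      rw [Complex.norm_intCast]
      exact_mod_cast lam_abs _) (by
      intro l s s' n hss
      have e1 : ∏ i ∈ (e l).1.2.erase (i₀ l), (lam (α l i * n + s i) : ℂ) =
          ∏ i ∈ (e l).1.2.erase (i₀ l), (lam (α l i * n + s' i) : ℂ) :=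
        prod_congr rfl fun i hi => by rw [hss i (mem_erase.1 hi).1]
      have e2 : ∏ i ∈ univ \ (e l).1.2, G i (α l i * n + s i) =
          ∏ i ∈ univ \ (e l).1.2, G i (α l i * n + s' i) :=
        prod_congr rfl fun i hi => by
          rw [hss i (fun h3 => (mem_sdiff.1 hi).2 (h3 ▸ hi₀ l))]
      rw [e1, e2])
  refine ⟨E, hE1, fun q hq hqE s hs a ha I hI X hX => ?_⟩
  obtain ⟨l, hl⟩ : ∃ l, e l = ⟨(fun i => ⟨a i - 1, by have := ha i; omega⟩, I), hI⟩ := e.surjective _
  have h1 := hE2 q hq hqE s hs l X hX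
  have hi := hi₀ l
  have ea : ∀ i, α l i = a i := by
    intro i
    rw [hα]
    simp only
    rw [hl]
    have := ha i
    simp only
    omega
  simp only [ea] at h1
  rw [hl] at h1 hi
  simp only at h1 hi
  refine le_trans (le_of_eq ?_) h1
  unfold linSum
  congr 1
  apply sum_congr rfl
  intro n _
  rw [lam_prod, ← mul_prod_erase I _ hi, ← lam_eq]
  push_cast
  ring

end Pool.Agent.Results.MP_892e4c_nt.MissingDigitFactors
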